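import Mathlib

set_option autoImplicit false

namespace Pool.Agent.Results.MP_09d285_al.No

open scoped commutatorElement TensorProduct

/-- D0 f: the largest n with f in the n-th term of the lower central series (gamma 1 = F),
infinite if f lies in all of them. -/
noncomputable def D0 {F : Type} [Group F] (f : F) : ℕ∞ :=
  sSup {n | ∃ k : ℕ, n = k + 1 ∧ f ∈ Subgroup.lowerCentralSeries (⊤ : Subgroup F) k}

/-- t to the power n, with t to the power infinity equal to 0. -/
noncomputable def pw (t : ℝ) (n : ℕ∞) : ℝ := if n = ⊤ then 0 else t ^ n.toNat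

/-- Golod-Shafarevich in characteristic zero. -/
def GS0 (G : Type) [Group G] : Prop :=
  ∃ (d : ℕ) (R : Set (FreeGroup (Fin d))), Nonempty (G ≃* PresentedGroup R) ∧
    ∃ t : ℝ, 0 < t ∧ t < 1 ∧ Summable (fun r : R => pw t (D0 r.1)) ∧
      1 - d * t + ∑' r : R, pw t (D0 r.1) < 0

section
variable {F : Type} [Group F]

lemma cpow {a g : F} (h : ∀ z, Commute ⁅a, g⁆ z) (m : ℕ) : ⁅a ^ m, g⁆ = ⁅a, g⁆ ^ m := by
  induction m with
  | zero => simp
  | succ m ih =>
    have e : ⁅a ^ (m + 1), g⁆ = a * ⁅a ^ m, g⁆ * a⁻¹ * ⁅a, g⁆ := by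
      simp only [commutatorElement_def, pow_succ']; group
    rw [e, ih, ← ((h a).pow_left m).eq, mul_inv_cancel_right, pow_succ]

lemma cpow2 {a g : F} (h : ∀ z, Commute ⁅a, g⁆ z) (m : ℕ) :
    ⁅a ^ m, g ^ m⁆ = ⁅a, g⁆ ^ (m * m) := by
  have h1 : ∀ z, Commute ⁅g, a ^ m⁆ z := fun z => by
    rw [← commutatorElement_inv, cpow h]; exact ((h z).pow_left m).inv_left
  rw [← commutatorElement_inv, cpow h1, ← inv_pow, commutatorElement_inv, cpow h, pow_mul]

abbrev L (F : Type) [Group F] (k : ℕ) : Subgroup F := Subgroup.lowerCentralSeries ⊤ k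

lemma step (H : Subgroup F) (m : ℕ) (hm : ∀ x, x ^ m ∈ H) (k : ℕ) (x : F) (hx : x ∈ L F (k + 1)) :
    ∃ h : H, Abelianization.of h = 1 ∧ h.1 ∈ L F (k + 1) ∧
      QuotientGroup.mk' (L F (k + 2)) x ^ (m * m) = QuotientGroup.mk' (L F (k + 2)) h := by
  have cen : ∀ y ∈ L F (k + 1), ∀ z, Commute (QuotientGroup.mk' (L F (k + 2)) y) z := by
    intro y hy z
    obtain ⟨z, rfl⟩ := QuotientGroup.mk'_surjective _ z
    rw [← commutatorElement_eq_one_iff_commute, ← map_commutatorElement]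
    exact (QuotientGroup.eq_one_iff _).2 (Subgroup.commutator_mem_commutator hy trivial)
  induction hx using Subgroup.closure_induction with
  | mem x hx =>
    obtain ⟨a, ha, g, -, rfl⟩ := hx
    refine ⟨⁅(⟨_, hm a⟩ : H), ⟨_, hm g⟩⁆, by
      rw [map_commutatorElement, commutatorElement_eq_one_iff_mul_comm, mul_comm],
      Subgroup.commutator_mem_commutator (pow_mem ha m) trivial, ?_⟩
    have := cen _ (Subgroup.commutator_mem_commutator ha (Subgroup.mem_top g))
    rw [map_commutatorElement] at this ⊢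
    rw [← cpow2 this, ← map_pow, ← map_pow, ← map_commutatorElement]
    rfl
  | one => exact ⟨1, map_one _, one_mem _, by rw [map_one, one_pow]; rfl⟩
  | mul x y hx _ ihx ihy =>
    obtain ⟨a, a1, a2, a3⟩ := ihx
    obtain ⟨b, b1, b2, b3⟩ := ihy
    exact ⟨a * b, by rw [map_mul, a1, b1, mul_one], mul_mem a2 b2, by
      rw [map_mul, (cen x hx _).mul_pow, a3, b3, Subgroup.coe_mul, map_mul]⟩
  | inv x _ ih =>
    obtain ⟨a, a1, a2, a3⟩ := ih
    exact ⟨a⁻¹, by rw [map_inv, a1, inv_one], inv_mem a2, by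
      rw [map_inv, inv_pow, a3, Subgroup.coe_inv, map_inv]⟩

lemma ex_pow (H : Subgroup F) [H.FiniteIndex] : ∃ m : ℕ, m ≠ 0 ∧ ∀ x, x ^ m ∈ H :=
  ⟨H.normalCore.index, Subgroup.FiniteIndex.index_ne_zero,
    fun x => H.normalCore_le (Subgroup.pow_index_mem _ x)⟩

lemma deep (H : Subgroup F) [H.FiniteIndex] (x : H) (hx : x.1 ∈ L F 1) (n : ℕ) :
    ∃ (M : ℕ) (y : H), M ≠ 0 ∧ y.1 ∈ L F (n + 1) ∧
      Abelianization.of x ^ M = Abelianization.of y := by
  obtain ⟨m, m0, hm⟩ := ex_pow H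
  induction n with
  | zero => exact ⟨1, x, one_ne_zero, hx, pow_one _⟩
  | succ n ih =>
    obtain ⟨M, y, M0, y1, y2⟩ := ih
    obtain ⟨h, h1, -, h3⟩ := step H m hm n y y1
    refine ⟨M * (m * m), h⁻¹ * y ^ (m * m), by positivity, ?_, by
      rw [pow_mul, y2, map_mul, map_inv, h1, inv_one, one_mul, map_pow]⟩
    rw [← map_pow] at h3
    exact QuotientGroup.eq.1 h3.symm

lemma pw_le {f : F} {n : ℕ} (h : f ∈ L F n) {t : ℝ} (t0 : 0 < t) (t1 : t < 1) :
    0 ≤ pw t (D0 f) ∧ pw t (D0 f) ≤ t ^ n := by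
  unfold pw
  split_ifs with e
  · exact ⟨le_rfl, by positivity⟩
  · refine ⟨by positivity, pow_le_pow_of_le_one t0.le t1.le ?_⟩
    have : ((n + 1 : ℕ) : ℕ∞) ≤ D0 f := le_sSup ⟨n, by simp, h⟩
    have := ENat.toNat_le_toNat this e
    rw [ENat.toNat_natCast] at this
    omega
end

abbrev F2 := FreeGroup (Fin 2)

lemma rels : ∃ y : ℕ → F2, (∀ n, y n ∈ L F2 (n + 8)) ∧ ∀ (H : Subgroup F2) [H.FiniteIndex] (x : H),
    x.1 ∈ L F2 1 → ∃ (M n : ℕ) (h : y n ∈ H), M ≠ 0 ∧
      Abelianization.of x ^ M = Abelianization.of ⟨y n, h⟩ := by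
  classical
  obtain ⟨e, he⟩ := exists_surjective_nat (Finset F2 × F2)
  have : ∀ n, ∃ y ∈ L F2 (n + 8), ∀ (H : Subgroup F2) [H.FiniteIndex] (x : H),
      H = Subgroup.closure (e n).1 → x.1 = (e n).2 → x.1 ∈ L F2 1 → ∃ (M : ℕ) (h : y ∈ H), M ≠ 0 ∧
      Abelianization.of x ^ M = Abelianization.of ⟨y, h⟩ := fun n => by
    by_cases h : (Subgroup.closure ((e n).1 : Set F2)).FiniteIndex ∧
        (e n).2 ∈ Subgroup.closure ((e n).1 : Set F2) ∧ (e n).2 ∈ L F2 1
    · obtain ⟨h1, h2, h3⟩ := h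
      obtain ⟨M, y, M0, y1, y2⟩ := deep _ ⟨_, h2⟩ h3 (n + 7)
      refine ⟨y, y1, ?_⟩
      rintro H _ ⟨x, hx⟩ rfl rfl -
      exact ⟨M, y.2, M0, y2⟩
    · refine ⟨1, one_mem _, ?_⟩
      rintro H _ ⟨x, hx⟩ rfl rfl h3
      exact absurd ⟨‹_›, hx, h3⟩ h
  choose y y1 y2 using this
  refine ⟨y, y1, fun H _ x hx => ?_⟩
  obtain ⟨s, hs⟩ := (Group.fg_iff_subgroup_fg H).1 inferInstance
  obtain ⟨n, hn⟩ := he (s, x.1)
  obtain ⟨M, h, h'⟩ := y2 n H x (by rw [hn, hs]) (by rw [hn]) hx
  exact ⟨M, n, h, h'⟩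

lemma ab (x : F2) : ∃ a b : ℤ, Abelianization.of x =
    Abelianization.of (FreeGroup.of 0) ^ a * Abelianization.of (FreeGroup.of 1) ^ b := by
  induction x using FreeGroup.induction_on with
  | C1 => exact ⟨0, 0, by simp⟩
  | of i =>
    fin_cases i
    exacts [⟨1, 0, by simp⟩, ⟨0, 1, by simp⟩]
  | inv_of i h =>
    obtain ⟨a, b, h⟩ := h
    exact ⟨-a, -b, by rw [map_inv, h, mul_inv, zpow_neg, zpow_neg]⟩
  | mul x y hx hy =>
    obtain ⟨a, b, h⟩ := hx
    obtain ⟨c, d, h'⟩ := hy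
    exact ⟨a + c, b + d, by rw [map_mul, h, h', zpow_add, zpow_add, mul_mul_mul_comm]⟩

theorem result : ∃ (G : Type) (_ : Group G), GS0 G ∧ ∀ H : Subgroup G, H.FiniteIndex →
    Module.rank ℚ (ℚ ⊗[ℤ] Additive (Abelianization H)) < 3 := by
  obtain ⟨y, y1, y2⟩ := rels
  refine ⟨PresentedGroup (Set.range y), inferInstance, ⟨2, Set.range y, ⟨MulEquiv.refl _⟩, 3 / 4,
    by norm_num, by norm_num, ?_⟩, fun H _ => ?_⟩
  · have b := fun n => pw_le (y1 n) (t := 3 / 4) (by norm_num) (by norm_num)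
    have s0 : HasSum (fun n : ℕ => (3 / 4 : ℝ) ^ (n + 8)) ((1 - 3 / 4)⁻¹ * (3 / 4) ^ 8) := by
      simp only [pow_add]
      exact (hasSum_geometric_of_lt_one (by norm_num) (by norm_num)).mul_right _
    have s1 : Summable fun n => pw (3 / 4) (D0 (y n)) :=
      Summable.of_nonneg_of_le (fun n => (b n).1) (fun n => (b n).2) s0.summable
    let g : Set.range y → ℕ := fun r => r.2.choose
    have hg : ∀ r, y (g r) = r.1 := fun r => r.2.choose_spec
    have gi : Function.Injective g := fun r s h => Subtype.ext (by rw [← hg, h, hg])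
    have e : (fun r : Set.range y => pw (3 / 4) (D0 r.1)) =
        (fun n => pw (3 / 4) (D0 (y n))) ∘ g := funext fun r => by simp [hg]
    rw [e]
    refine ⟨s1.comp_injective gi, ?_⟩
    have := (tsum_comp_le_tsum_of_inj s1 (fun n => (b n).1) gi).trans
      (hasSum_le (fun n => (b n).2) s1.hasSum s0)
    norm_num at this ⊢
    linarith
  · let π : F2 →* PresentedGroup (Set.range y) := PresentedGroup.mk _
    let K := H.comap π
    have : K.FiniteIndex := ⟨by
      rw [Subgroup.index_comap_of_surjective _ (PresentedGroup.mk_surjective _)]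
      exact Subgroup.FiniteIndex.index_ne_zero⟩
    let φ : K →* Abelianization H := Abelianization.of.comp (π.subgroupComap H)
    let v : K → ℚ ⊗[ℤ] Additive (Abelianization H) := fun x => 1 ⊗ₜ Additive.ofMul (φ x)
    have vm : ∀ a b, v (a * b) = v a + v b := fun a b => by
      simp only [v, map_mul, ofMul_mul, TensorProduct.tmul_add]
    have vz : ∀ a (n : ℤ), v (a ^ n) = (n : ℚ) • v a := fun a n => by
      simp only [v, map_zpow, ofMul_zpow, TensorProduct.tmul_smul, Int.cast_smul_eq_zsmul]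
    have v0 : ∀ x : K, x.1 ∈ L F2 1 → v x = 0 := fun x hx => by
      obtain ⟨M, n, h, M0, e⟩ := y2 K x hx
      have e1 := congrArg (Abelianization.lift φ) e
      rw [map_pow, Abelianization.lift_apply_of, Abelianization.lift_apply_of] at e1
      have e2 : φ ⟨y n, h⟩ = 1 := by
        have : π.subgroupComap H ⟨y n, h⟩ = 1 :=
          Subtype.ext (PresentedGroup.one_of_mem ⟨n, rfl⟩)
        simp only [φ, MonoidHom.comp_apply, this, map_one]
      have e3 := vz x M
      simp only [v, zpow_natCast, map_pow, e1, e2, ofMul_one, TensorProduct.tmul_zero] at e3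
      exact (smul_eq_zero.1 e3.symm).resolve_left (by exact_mod_cast M0)
    obtain ⟨m, m0, hm⟩ := ex_pow K
    have sp : Submodule.span ℚ (Set.range ![v ⟨_, hm (FreeGroup.of 0)⟩,
        v ⟨_, hm (FreeGroup.of 1)⟩]) = ⊤ := by
      have key : ∀ x, v x ∈ Submodule.span ℚ (Set.range ![v ⟨_, hm (FreeGroup.of 0)⟩,
          v ⟨_, hm (FreeGroup.of 1)⟩]) := fun x => by
        obtain ⟨a, b, h⟩ := ab x.1
        have e := v0 (x ^ (-m : ℤ) * ((⟨_, hm (FreeGroup.of 0)⟩ : K) ^ a *
          (⟨_, hm (FreeGroup.of 1)⟩ : K) ^ b)) (by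
            refine (QuotientGroup.eq_one_iff _).1 (show Abelianization.of _ = 1 from ?_)
            simp only [Subgroup.coe_mul, SubgroupClass.coe_zpow, map_mul, map_zpow, h,
              mul_zpow, ← zpow_natCast, ← zpow_mul]
            rw [mul_mul_mul_comm, ← zpow_add, ← zpow_add]
            simp [mul_comm])
        rw [vm, vm, vz, vz, vz, add_eq_zero_iff_neg_eq, ← neg_smul] at e
        refine (Submodule.smul_mem_iff _ (s := -((-m : ℤ) : ℚ)) (by simpa using m0)).1 ?_
        rw [e]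
        exact add_mem (Submodule.smul_mem _ _ (Submodule.subset_span ⟨0, rfl⟩))
          (Submodule.smul_mem _ _ (Submodule.subset_span ⟨1, rfl⟩))
      refine eq_top_iff.2 fun t _ => ?_
      induction t using TensorProduct.induction_on with
      | zero => exact zero_mem _
      | add a b ha hb => exact add_mem (ha trivial) (hb trivial)
      | tmul q a =>
        obtain ⟨h, rfl⟩ : ∃ h : H, Additive.ofMul (Abelianization.of h) = a :=
          QuotientGroup.mk_surjective a.toMul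
        obtain ⟨x, hx⟩ := PresentedGroup.mk_surjective _ h.1
        have := Submodule.smul_mem _ q (key ⟨x, show π x ∈ H from hx ▸ h.2⟩)
        simp only [v, TensorProduct.smul_tmul', smul_eq_mul, mul_one] at this
        have e : π.subgroupComap H ⟨x, show π x ∈ H from hx ▸ h.2⟩ = h := Subtype.ext hx
        rw [← e]
        exact this
    rw [← rank_top, ← sp]
    refine (rank_span_le _).trans_lt (Cardinal.mk_range_le.trans_lt ?_)
    simp
    norm_num

end Pool.Agent.Results.MP_09d285_al.No
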